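import Pool.Agent.V11150.RatM

/-!
# A third of ALL times are gaps between isolated consecutive primes, for all maps `y ↦ (b y + c) / a`

Let `a, b ≥ 1` and `c ≠ 0` be pairwise coprime and not all odd. The `j`-th iterate of `y` under the map
`y ↦ (b y + c) / a` is the rational number `z` with `a ^ j * z = b ^ j * y + c * (a ^ (j - 1) + a ^ (j - 2) * b + ⋯ +
b ^ (j - 1))`. The question is about the map `y ↦ 2 y - 1` (`a = 1`, `b = 2`, `c = -1`) and `j = 1`.

There is ONE absolute constant `C` such that for all these maps and all `R`, `ε > 0`, in every sufficiently long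
window `u < j ≤ u + T` at least `(1 / 3 - ε) T` of ALL the times `j` have the following property, for arbitrarily
large `x`. For at least `x / (log x) ^ C` primes `p ≤ x` the `j`-th iterate of `p` is prime, no iterate in
between is prime, none of the next `R` iterates is prime, and `p` is none of the first `R` iterates of any prime.

Proof: the coloured Maynard-Tao theorem with the constant `18 / 5 < 4` and a power of the logarithm
(`Y827.RO.lamR0`: two of any four classes of forms), congruences which make the values at all other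
times composite, a choice of one form from every class which keeps the forms more than `R` apart, and
the theorem on four classes and all multiples of two (`W432.UB.main`).
-/

set_option autoImplicit false

namespace Pool.Agent.Results.MP_0fefc4_nt.ThirdOfAllMaps

open Filter Finset

/-- `z` is the `l`-th iterate of `y` under the map `y ↦ (b y + c) / a` -/
def Iter (a b c : ℤ) (l : ℕ) (y z : ℤ) : Prop :=
  a ^ l * z = b ^ l * y + c * ∑ i ∈ range l, a ^ i * b ^ (l - 1 - i)

/-- the `j`-th iterate `q` of the prime `p` is prime, none of the earlier iterates of `p` and none of the first `R`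
iterates of `q` is prime, and `p` is none of the first `R` iterates of a prime -/
def Gap (a b c : ℤ) (R j p : ℕ) : Prop :=
  p.Prime ∧ ∃ q : ℕ, q.Prime ∧ Iter a b c j p q ∧
    (∀ l, 0 < l → l < j → ∀ r : ℕ, r.Prime → ¬ Iter a b c l p r) ∧
    ∀ l, 0 < l → l ≤ R → ∀ r : ℕ, r.Prime → ¬ Iter a b c l q r ∧ ¬ Iter a b c l r p

/-- For the question take `a = 1`, `b = 2`, `c = -1`: then `Iter a b c l y z` says `z = 2 ^ l * (y - 1) + 1`. -/
theorem result : ∃ C : ℕ, ∀ a b c : ℤ, 1 ≤ a → 1 ≤ b → c ≠ 0 → IsCoprime a b → IsCoprime a c →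
    IsCoprime b c → ¬ (Odd a ∧ Odd b ∧ Odd c) → ∀ (R : ℕ) (ε : ℝ), 0 < ε → ∃ L : ℕ, ∀ T : ℕ, L ≤ T →
    ∀ u : ℕ, (1 / 3 - ε) * (T : ℝ) ≤ ({j : ℕ | u < j ∧ j ≤ u + T ∧ ∃ᶠ x : ℕ in atTop,
      (x : ℝ) / (Real.log x) ^ C ≤ ({p : ℕ | p ≤ x ∧ Gap a b c R j p}.ncard : ℝ)}.ncard : ℝ) := by
  obtain ⟨C, hC⟩ := Pool.Agent.V11150.RatH.thirdGap
  refine ⟨C, ?_⟩
  intro a b c ha hb hc hab hac hbc hpar R ε hε
  obtain ⟨L, hL⟩ := hC R a b c ha hb hc hab hac hbc hpar ε hε
  have hiter : ∀ (l y z : ℕ), Iter a b c l y z ↔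
      a ^ l * (z : ℤ) - b ^ l * y = Pool.Agent.V11150.RatL.cj a b c l := by
    intro l y z
    unfold Iter Pool.Agent.V11150.RatL.cj
    constructor
    · intro h; linarith
    · intro h; linarith
  refine ⟨L, fun T hT u => (hL T hT u).trans ?_⟩
  rw [Nat.cast_le]
  refine Set.ncard_le_ncard ?_ ((Set.finite_Ioc u (u + T)).subset fun k hk => ⟨hk.1, hk.2.1⟩)
  rintro j ⟨h1, h2, h3⟩
  refine ⟨h1, h2, ?_⟩
  refine Filter.Frequently.mono h3 fun x hx => hx.trans ?_
  rw [Nat.cast_le]
  refine Set.ncard_le_ncard ?_ ((Set.finite_Iic x).subset fun q hq => hq.1)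
  rintro p ⟨⟨hp, q, hq, h4, h5, h6⟩, hpx⟩
  refine ⟨hpx, hp, q, hq, (hiter j p q).2 h4, fun l hl hlj r hr h => h5 l hl hlj r hr ((hiter l p r).1 h), ?_⟩
  intro l hl hlR r hr
  exact ⟨fun h => (h6 l hl hlR).1 r hr ((hiter l q r).1 h), fun h => (h6 l hl hlR).2 r hr ((hiter l r p).1 h)⟩

end Pool.Agent.Results.MP_0fefc4_nt.ThirdOfAllMaps
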